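import Pool.Agent.H47.OI.Defs

/-!
# Module Pfl: the invariance passes to the limit

PROOF. Let `B a = B b = u`, `B' (a), B' (b) ≠ 0`. For small `r` and large `j` the `F j` are nearly linear on the `r`-balls at `a`, `b`; the images of these balls contain a fixed ball `Δ` at `u`, and small sets have small images. So there is `u' ∈ Δ` which is not the image of a bad point of the two balls; `u' = F j a' = F j b'`, and `IV` for `a'`, `b'` gives in the limit
`N a * B' a * conj (B' b) = N b * B' b * conj (B' a)`, `N = c conj φ' / φ'`.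
-/

set_option autoImplicit false

open Filter Topology Metric Set MeasureTheory

namespace Pool.Agent.H47.OI

private theorem loc {F : ℕ → ℂ → ℂ} {B : ℂ → ℂ}
    (hF : ∀ j, DifferentiableOn ℂ (F j) (ball 0 1)) (hB : TendstoLocallyUniformlyOn F B atTop (ball 0 1))
    {p : ℂ} (hp : p ∈ ball (0 : ℂ) 1) (h0 : deriv B p ≠ 0) {δ : ℝ} (hδ : 0 < δ) {ρ : ℝ} (hρ : 0 < ρ) :
    ∃ r : ℝ, 0 < r ∧ r ≤ ρ ∧ closedBall p r ⊆ ball 0 1 ∧ ∃ η : ℝ, 0 < η ∧ ∃ m : NNReal, ∀ᶠ j in atTop,
      (∀ w ∈ closedBall p r, ‖deriv (F j) w - deriv B p‖ < δ) ∧ ball (B p) η ⊆ F j '' closedBall p r ∧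
      (∀ w ∈ closedBall p r, deriv (F j) w ≠ 0) ∧
      ∀ E ⊆ closedBall p r, volume (F j '' E) ≤ m * volume E := by
  set D : ℂ := deriv B p with hD
  have hDpos : 0 < ‖D‖ := norm_pos_iff.2 h0
  set A : ℂ →L[ℝ] ℂ := (ContinuousLinearMap.smulRight (1 : ℂ →L[ℂ] ℂ) D).restrictScalars ℝ with hA
  have hAx : ∀ x : ℂ, A x = x * D := fun x => by simp [hA]
  set m : NNReal := Real.toNNReal (|A.det| + 1) with hm
  have hm1 : ENNReal.ofReal |A.det| < m := by
    rw [hm]
    exact (ENNReal.ofReal_lt_ofReal_iff (by positivity)).2 (lt_add_one _)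
  have hev := addHaar_image_le_mul_of_det_lt (volume : Measure ℂ) A hm1
  have hmin : 0 < min δ (‖D‖ / 2) := lt_min hδ (by positivity)
  have hev2 : ∀ᶠ d : NNReal in 𝓝[>] (0 : NNReal), 0 < d ∧ (d : ℝ) < min δ (‖D‖ / 2) := by
    have h1 : Ioo (0 : NNReal) (Real.toNNReal (min δ (‖D‖ / 2))) ∈ 𝓝[>] (0 : NNReal) :=
      Ioo_mem_nhdsGT (by simpa using hmin)
    filter_upwards [h1] with d hd
    exact ⟨hd.1, by
      have := hd.2
      rw [Real.lt_toNNReal_iff_coe_lt] at this
      exact this⟩
  obtain ⟨d, hd1, hd0, hd2⟩ := (hev.and hev2).exists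
  have hdpos : (0 : ℝ) < d := by exact_mod_cast hd0
  have hdδ : (d : ℝ) < δ := hd2.trans_le (min_le_left _ _)
  have hdD : (d : ℝ) < ‖D‖ / 2 := hd2.trans_le (min_le_right _ _)
  have hBd : DifferentiableOn ℂ B (ball 0 1) :=
    hB.differentiableOn (Filter.Eventually.of_forall hF) isOpen_ball
  have hB' : TendstoLocallyUniformlyOn (deriv ∘ F) (deriv B) atTop (ball 0 1) :=
    hB.deriv (Filter.Eventually.of_forall hF) isOpen_ball
  have hcont : ContinuousAt (deriv B) p :=
    ((hBd.analyticOnNhd isOpen_ball).deriv p hp).continuousAt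
  obtain ⟨r0, hr0, hr0'⟩ := Metric.continuousAt_iff.1 hcont (d / 2) (by positivity)
  have hp1 : ‖p‖ < 1 := mem_ball_zero_iff.1 hp
  set r : ℝ := min ρ (min (r0 / 2) ((1 - ‖p‖) / 2)) with hr
  have hrpos : 0 < r := lt_min hρ (lt_min (by positivity) (by linarith))
  have hrρ : r ≤ ρ := min_le_left _ _
  have hrr0 : r < r0 := ((min_le_right _ _).trans (min_le_left _ _)).trans_lt (by linarith)
  have hrp : r ≤ (1 - ‖p‖) / 2 := (min_le_right _ _).trans (min_le_right _ _)
  have hsub : closedBall p r ⊆ ball (0 : ℂ) 1 := by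
    intro w hw
    rw [mem_ball_zero_iff]
    rw [mem_closedBall, dist_eq_norm] at hw
    have : ‖w‖ ≤ ‖w - p‖ + ‖p‖ := by simpa using norm_add_le (w - p) p
    linarith
  refine ⟨r, hrpos, hrρ, hsub, ‖D‖ * r / 8, by positivity, m, ?_⟩
  have hunif := (tendstoLocallyUniformlyOn_iff_forall_isCompact isOpen_ball).1 hB' _ hsub
    (isCompact_closedBall p r)
  rw [Metric.tendstoUniformlyOn_iff] at hunif
  have hpt : Tendsto (fun j => F j p) atTop (𝓝 (B p)) := hB.tendsto_at hp
  rw [Metric.tendsto_nhds] at hpt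
  filter_upwards [hunif (d / 2) (by positivity), hpt (‖D‖ * r / 8) (by positivity)] with j hj1 hj2
  have hder : ∀ w ∈ closedBall p r, ‖deriv (F j) w - D‖ < d := by
    intro w hw
    have h1 := hj1 w hw
    rw [dist_eq_norm, norm_sub_rev] at h1
    have h2 : dist (deriv B w) (deriv B p) < d / 2 :=
      hr0' (lt_of_le_of_lt (mem_closedBall.1 hw) hrr0)
    rw [dist_eq_norm] at h2
    have h3 : deriv (F j) w - D = (deriv (F j) w - deriv B w) + (deriv B w - deriv B p) := by
      rw [hD]; ring
    rw [h3]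
    refine (norm_add_le _ _).trans_lt ?_
    have h4 : ‖deriv (F j) w - deriv B w‖ < d / 2 := h1
    linarith
  have happ : ∀ x ∈ closedBall p r, ∀ y ∈ closedBall p r,
      ‖F j x - F j y - (x - y) * D‖ ≤ d * ‖x - y‖ := by
    intro x hx y hy
    have hg : ∀ z ∈ closedBall p r, HasDerivAt (fun z => F j z - z * D) (deriv (F j) z - D) z := by
      intro z hz
      have h1 := ((hF j).differentiableAt (isOpen_ball.mem_nhds (hsub hz))).hasDerivAt
      have h2 := (hasDerivAt_id z).mul_const D
      rw [one_mul] at h2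
      exact h1.sub h2
    have h3 := (convex_closedBall p r).norm_image_sub_le_of_norm_deriv_le (𝕜 := ℂ)
      (f := fun z => F j z - z * D) (C := d) (x := y) (y := x)
      (fun z hz => (hg z hz).differentiableAt)
      (fun z hz => by rw [(hg z hz).deriv]; exact (hder z hz).le) hy hx
    have h4 : F j x - F j y - (x - y) * D = (F j x - x * D) - (F j y - y * D) := by ring
    rw [h4]
    exact h3
  have hlow : ∀ z ∈ closedBall p r, ‖D‖ / 2 * ‖z - p‖ ≤ ‖F j z - F j p‖ := by
    intro z hz
    have h1 := happ z hz p (mem_closedBall_self hrpos.le)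
    have h2 : ‖(z - p) * D‖ ≤ ‖F j z - F j p‖ + ‖F j z - F j p - (z - p) * D‖ := by
      have : (z - p) * D = (F j z - F j p) - (F j z - F j p - (z - p) * D) := by ring
      calc ‖(z - p) * D‖ = ‖(F j z - F j p) - (F j z - F j p - (z - p) * D)‖ := by rw [← this]
        _ ≤ _ := norm_sub_le _ _
    rw [norm_mul] at h2
    nlinarith [norm_nonneg (z - p)]
  refine ⟨fun w hw => (hder w hw).trans hdδ, ?_, ?_, ?_⟩
  · have h1 : ball (F j p) (‖D‖ / 2 * r / 2) ⊆ F j '' closedBall p r := by
      refine DiffContOnCl.ball_subset_image_closedBall ((hF j).diffContOnCl_ball hsub) hrpos ?_ ?_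
      · intro z hz
        have := hlow z (sphere_subset_closedBall hz)
        rw [mem_sphere, dist_eq_norm] at hz
        rw [hz] at this
        exact this
      · have h2 : ∀ᶠ z in 𝓝[≠] p, F j z ≠ F j p := by
          filter_upwards [self_mem_nhdsWithin,
            nhdsWithin_le_nhds (closedBall_mem_nhds p hrpos)] with z hz1 hz2
          intro h
          have h3 := hlow z hz2
          rw [h, sub_self, norm_zero] at h3
          have h4 : 0 < ‖z - p‖ := norm_pos_iff.2 (sub_ne_zero.2 hz1)
          nlinarith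
        exact h2.frequently.filter_mono nhdsWithin_le_nhds
    refine Subset.trans ?_ h1
    intro z hz
    rw [mem_ball] at hz ⊢
    have := dist_triangle z (B p) (F j p)
    rw [dist_comm (B p) (F j p)] at this
    linarith
  · intro w hw h
    have h1 := hder w hw
    rw [h, zero_sub, norm_neg] at h1
    linarith
  · intro E hE
    refine hd1 E (F j) ?_
    intro x hx y hy
    have h := happ x (hE hx) y (hE hy)
    rw [← hAx] at h
    exact h

theorem pfl {F : ℕ → ℂ → ℂ} {B φ : ℂ → ℂ} {ν : ℕ → ℂ → ℂ} {c : ℂ} (hc : ‖c‖ = 1)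
    (hF : ∀ j, DifferentiableOn ℂ (F j) (ball 0 1)) (hB : TendstoLocallyUniformlyOn F B atTop (ball 0 1))
    (hφ : DifferentiableOn ℂ φ (ball 0 1)) (hφ0 : ∀ w ∈ ball (0 : ℂ) 1, deriv φ w ≠ 0) (hν : FCv ν φ c)
    (hiv : ∀ j, IV (ball 0 1) (F j) (ν j)) : PF (ball 0 1) B φ := by
  intro a ha b hb hab ha0 hb0
  set N : ℂ → ℂ := fun w => c * (starRingEnd ℂ) (deriv φ w) / deriv φ w with hN
  have hNc : ∀ w ∈ ball (0 : ℂ) 1, ContinuousAt N w := by
    intro w hw
    have h1 : ContinuousAt (deriv φ) w := ((hφ.analyticOnNhd isOpen_ball).deriv w hw).continuousAt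
    exact (continuousAt_const.mul (Complex.continuous_conj.continuousAt.comp h1)).div₀ h1 (hφ0 w hw)
  -- the key relation
  have key : N a * deriv B a * (starRingEnd ℂ) (deriv B b) =
      N b * deriv B b * (starRingEnd ℂ) (deriv B a) := by
    set T : Set (ℂ × ℂ × ℂ × ℂ) :=
      {x | x.1 * x.2.1 * (starRingEnd ℂ) x.2.2.2 = x.2.2.1 * x.2.2.2 * (starRingEnd ℂ) x.2.1} with hT
    have hTc : IsClosed T := by
      apply isClosed_eq
      · exact (continuous_fst.mul (continuous_fst.comp continuous_snd)).mul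
          (Complex.continuous_conj.comp (continuous_snd.comp (continuous_snd.comp continuous_snd)))
      · exact ((continuous_fst.comp (continuous_snd.comp continuous_snd)).mul
          (continuous_snd.comp (continuous_snd.comp continuous_snd))).mul
          (Complex.continuous_conj.comp (continuous_fst.comp continuous_snd))
    have hmem : ((N a, deriv B a, N b, deriv B b) : ℂ × ℂ × ℂ × ℂ) ∈ closure T := by
      rw [Metric.mem_closure_iff]
      intro ε hε
      obtain ⟨ρa, hρa, hρa'⟩ := Metric.continuousAt_iff.1 (hNc a ha) (ε / 2) (by positivity)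
      obtain ⟨ρb, hρb, hρb'⟩ := Metric.continuousAt_iff.1 (hNc b hb) (ε / 2) (by positivity)
      obtain ⟨ra, hra, hraρ, hrasub, ηa, hηa, ma, hea⟩ :=
        loc hF hB ha ha0 hε (ρ := ρa / 2) (by positivity)
      obtain ⟨rb, hrb, hrbρ, hrbsub, ηb, hηb, mb, heb⟩ :=
        loc hF hB hb hb0 hε (ρ := ρb / 2) (by positivity)
      -- a radius `R < 1`
      obtain ⟨R, hR1, hRa, hRb⟩ : ∃ R : ℝ, R < 1 ∧ closedBall a ra ⊆ ball 0 R ∧
          closedBall b rb ⊆ ball 0 R := by
        have hcpt : IsCompact (closedBall a ra ∪ closedBall b rb) :=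
          (isCompact_closedBall a ra).union (isCompact_closedBall b rb)
        have hne : (closedBall a ra ∪ closedBall b rb).Nonempty :=
          ⟨a, Or.inl (mem_closedBall_self hra.le)⟩
        obtain ⟨z, hz, hzmax⟩ := hcpt.exists_isMaxOn hne continuous_norm.continuousOn
        have hz1 : ‖z‖ < 1 := mem_ball_zero_iff.1 (hz.elim (fun h => hrasub h) fun h => hrbsub h)
        refine ⟨(‖z‖ + 1) / 2, by linarith, ?_, ?_⟩
        · intro w hw
          rw [mem_ball_zero_iff]
          have : ‖w‖ ≤ ‖z‖ := hzmax (Or.inl hw)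
          linarith
        · intro w hw
          rw [mem_ball_zero_iff]
          have : ‖w‖ ≤ ‖z‖ := hzmax (Or.inr hw)
          linarith
      have hlim := hν R hR1 (ε / 2) (by positivity)
      set η := min ηa ηb with hη
      have hηpos : 0 < η := lt_min hηa hηb
      have hvol : 0 < volume (ball (B a) η) := measure_ball_pos volume _ hηpos
      have hlim2 : Tendsto (fun j => ((ma : ENNReal) + mb) *
          volume (ball (0 : ℂ) R ∩ {w | ε / 2 ≤ ‖ν j w - c * (starRingEnd ℂ) (deriv φ w) / deriv φ w‖}))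
          atTop (𝓝 0) := by
        have := ENNReal.Tendsto.const_mul (a := (ma : ENNReal) + mb) hlim
          (Or.inr (by simp))
        rwa [mul_zero] at this
      obtain ⟨j, ⟨hj1, hj2, hj3, hj4⟩, ⟨hj5, hj6, hj7, hj8⟩, hj9⟩ :=
        (hea.and (heb.and (hlim2.eventually (gt_mem_nhds hvol)))).exists
      obtain ⟨Z, hZ0, hZ⟩ := hiv j
      set Bad : Set ℂ :=
        Z ∪ (ball (0 : ℂ) R ∩ {w | ε / 2 ≤ ‖ν j w - c * (starRingEnd ℂ) (deriv φ w) / deriv φ w‖}) with hBad
      have hBv : volume Bad ≤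
          volume (ball (0 : ℂ) R ∩ {w | ε / 2 ≤ ‖ν j w - c * (starRingEnd ℂ) (deriv φ w) / deriv φ w‖}) := by
        refine (measure_union_le _ _).trans ?_
        rw [hZ0, zero_add]
      have hI : volume (F j '' (closedBall a ra ∩ Bad) ∪ F j '' (closedBall b rb ∩ Bad)) <
          volume (ball (B a) η) := by
        refine lt_of_le_of_lt ?_ hj9
        refine (measure_union_le _ _).trans ?_
        rw [add_mul]
        refine add_le_add ?_ ?_
        · exact (hj4 _ inter_subset_left).trans
            (mul_le_mul_right ((measure_mono inter_subset_right).trans hBv) _)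
        · exact (hj8 _ inter_subset_left).trans
            (mul_le_mul_right ((measure_mono inter_subset_right).trans hBv) _)
      obtain ⟨u, hu1, hu2⟩ : ∃ u ∈ ball (B a) η,
          u ∉ F j '' (closedBall a ra ∩ Bad) ∪ F j '' (closedBall b rb ∩ Bad) := by
        by_contra hcon
        push Not at hcon
        exact absurd (measure_mono hcon) (not_le.2 hI)
      have hua : u ∈ ball (B a) ηa := ball_subset_ball (min_le_left _ _) hu1
      have hub : u ∈ ball (B b) ηb := by
        rw [← hab]
        exact ball_subset_ball (min_le_right _ _) hu1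
      obtain ⟨a', ha', hFa'⟩ := hj2 hua
      obtain ⟨b', hb', hFb'⟩ := hj6 hub
      have ha'B : a' ∉ Bad := fun h => hu2 (Or.inl ⟨a', ⟨ha', h⟩, hFa'⟩)
      have hb'B : b' ∉ Bad := fun h => hu2 (Or.inr ⟨b', ⟨hb', h⟩, hFb'⟩)
      have e1 := hZ a' (hrasub ha') (fun h => ha'B (Or.inl h)) b' (hrbsub hb')
        (fun h => hb'B (Or.inl h)) (hFa'.trans hFb'.symm) (hj3 a' ha') (hj7 b' hb')
      refine ⟨(ν j a', deriv (F j) a', ν j b', deriv (F j) b'), e1, ?_⟩
      have n1 : ‖ν j a' - N a'‖ < ε / 2 := by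
        by_contra hcon
        push Not at hcon
        exact ha'B (Or.inr ⟨hRa ha', hcon⟩)
      have n2 : ‖ν j b' - N b'‖ < ε / 2 := by
        by_contra hcon
        push Not at hcon
        exact hb'B (Or.inr ⟨hRb hb', hcon⟩)
      have n3 : dist (N a') (N a) < ε / 2 :=
        hρa' (lt_of_le_of_lt (mem_closedBall.1 ha') (by linarith))
      have n4 : dist (N b') (N b) < ε / 2 :=
        hρb' (lt_of_le_of_lt (mem_closedBall.1 hb') (by linarith))
      rw [dist_eq_norm] at n3 n4
      have d1 : dist (N a) (ν j a') < ε := by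
        rw [dist_eq_norm, norm_sub_rev]
        have : ν j a' - N a = (ν j a' - N a') + (N a' - N a) := by ring
        rw [this]
        exact (norm_add_le _ _).trans_lt (by linarith)
      have d2 : dist (N b) (ν j b') < ε := by
        rw [dist_eq_norm, norm_sub_rev]
        have : ν j b' - N b = (ν j b' - N b') + (N b' - N b) := by ring
        rw [this]
        exact (norm_add_le _ _).trans_lt (by linarith)
      have d3 : dist (deriv B a) (deriv (F j) a') < ε := by
        rw [dist_eq_norm, norm_sub_rev]; exact hj1 a' ha'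
      have d4 : dist (deriv B b) (deriv (F j) b') < ε := by
        rw [dist_eq_norm, norm_sub_rev]; exact hj5 b' hb'
      simp only [Prod.dist_eq, max_lt_iff]
      exact ⟨d1, d3, d2, d4⟩
    rw [hTc.closure_eq] at hmem
    exact hmem
  -- conclusion
  have hpa := hφ0 a ha
  have hpb := hφ0 b hb
  have hc0 : c ≠ 0 := by
    rintro rfl
    simp at hc
  set x := deriv φ a * deriv B b with hx
  set y := deriv φ b * deriv B a with hy
  have hx0 : x ≠ 0 := mul_ne_zero hpa hb0
  have hy0 : y ≠ 0 := mul_ne_zero hpb ha0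
  have hxy : (starRingEnd ℂ) x * y = (starRingEnd ℂ) y * x := by
    have h1 : N a * deriv φ a = c * (starRingEnd ℂ) (deriv φ a) := div_mul_cancel₀ _ hpa
    have h2 : N b * deriv φ b = c * (starRingEnd ℂ) (deriv φ b) := div_mul_cancel₀ _ hpb
    have h3 : c * ((starRingEnd ℂ) x * y - (starRingEnd ℂ) y * x) = 0 := by
      rw [hx, hy, map_mul, map_mul]
      linear_combination deriv φ a * deriv φ b * key -
        (deriv φ b * deriv B a * (starRingEnd ℂ) (deriv B b)) * h1 +
        (deriv φ a * deriv B b * (starRingEnd ℂ) (deriv B a)) * h2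
    rcases mul_eq_zero.1 h3 with h | h
    · exact absurd h hc0
    · exact sub_eq_zero.1 h
  have hreal : ((x / y).im) = 0 := by
    rw [← Complex.conj_eq_iff_im, map_div₀, div_eq_div_iff (by simpa using hy0) hy0]
    rw [hxy]; ring
  have hq : x / y = ((x / y).re : ℂ) := Complex.ext (by simp) (by simp [hreal])
  have hre : (x / y).re ≠ 0 := by
    intro h
    rw [h, Complex.ofReal_zero] at hq
    exact div_ne_zero hx0 hy0 hq
  refine ⟨(x / y).re ^ 2, by positivity, ?_⟩
  have h4 : x = (x / y) * y := (div_mul_cancel₀ x hy0).symm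
  push_cast
  rw [← hq]
  rw [div_pow, div_mul_cancel₀ _ (pow_ne_zero 2 hy0)]

end Pool.Agent.H47.OI
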