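import Pool.Agent.H47.OI.Defs
import Pool.Agent.H31.MMx.Bad

/-!
# Module Scw: blow ups at a point of approximate continuity (`x` in a compact part of the disc)

PROOF. `χ j w = (ψ j w - ψ j (w j)) / ψ j' (0)` is a normalised univalent function (`χ j (w j) = 0`, `χ j' (0) = 1`): by Koebe (H31/MMx/Bad: `dist_le`, `img_le`) the `χ j` are uniformly bounded on compact subsets; Montel along a free ultrafilter (`um`) and Hurwitz (`uh_inj`): the limit `φ` is injective; a subsequence converges (`subs`).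
`conj (ψ j') / ψ j' = (conj (ψ j' (0)) / ψ j' (0)) * (conj (χ j') / χ j')`; `conj (ψ j' (0)) / ψ j' (0) → u`, `c' = c u`. `‖x - ψ j w‖ ≤ C ‖ψ j' (0)‖` on `closedBall 0 r`, so the measure of `{w ∈ ball 0 r | ε ≤ ‖μ (ψ j w) - c‖}` is at most (`bad_le`)
`K ‖ψ j' (0)‖⁻² volume (ball x (C ‖ψ j' (0)‖) ∩ {ε ≤ ‖μ - c‖})`, which tends to `0` by `AC` (outer measure: `toMeasurable`).
-/

set_option autoImplicit false

open Filter Topology Metric Set MeasureTheory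

namespace Pool.Agent.H47.OI

open Pool.Agent.H43.UB Pool.Agent.H31.MMx

/-- a subsequence which converges like the ultrafilter -/
private theorem subs {𝒰 : Ultrafilter ℕ} (h𝒰 : (𝒰 : Filter ℕ) ≤ atTop) {χ : ℕ → ℂ → ℂ} {φ : ℂ → ℂ} {u : ℕ → ℂ} {u0 : ℂ}
    (h : TendstoLocallyUniformlyOn χ φ (𝒰 : Filter ℕ) (ball 0 1)) (hu : Tendsto u (𝒰 : Filter ℕ) (𝓝 u0)) :
    ∃ s : ℕ → ℕ, StrictMono s ∧ TendstoLocallyUniformlyOn (fun j => χ (s j)) φ atTop (ball 0 1) ∧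
      Tendsto (fun j => u (s j)) atTop (𝓝 u0) := by
  have hk : ∀ n : ℕ, ∀ᶠ j in (𝒰 : Filter ℕ), (∀ w ∈ closedBall (0 : ℂ) (1 - 1 / ((n : ℝ) + 1)), dist (φ w) (χ j w) < 1 / ((n : ℝ) + 1)) ∧
      dist (u j) u0 < 1 / ((n : ℝ) + 1) := by
    intro n
    have hn : (0 : ℝ) < 1 / ((n : ℝ) + 1) := by positivity
    have hsub : closedBall (0 : ℂ) (1 - 1 / ((n : ℝ) + 1)) ⊆ ball 0 1 := closedBall_subset_ball (by linarith)
    have h1 := (tendstoLocallyUniformlyOn_iff_forall_isCompact isOpen_ball).1 h _ hsub (isCompact_closedBall _ _)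
    exact (Metric.tendstoUniformlyOn_iff.1 h1 _ hn).and (Metric.tendsto_nhds.1 hu _ hn)
  have hex : ∀ n N : ℕ, ∃ j : ℕ, N < j ∧ (∀ w ∈ closedBall (0 : ℂ) (1 - 1 / ((n : ℝ) + 1)), dist (φ w) (χ j w) < 1 / ((n : ℝ) + 1)) ∧
      dist (u j) u0 < 1 / ((n : ℝ) + 1) := by
    intro n N
    have h1 : ∀ᶠ j in (𝒰 : Filter ℕ), N < j := h𝒰 (eventually_gt_atTop N)
    obtain ⟨j, hj1, hj2⟩ := (h1.and (hk n)).exists
    exact ⟨j, hj1, hj2⟩
  choose f hf using hex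
  obtain ⟨s, hs⟩ : ∃ s : ℕ → ℕ, ∀ n, s n = Nat.rec (f 0 0) (fun n a => f (n + 1) a) n := ⟨fun n => Nat.rec (f 0 0) (fun n a => f (n + 1) a) n, fun n => rfl⟩
  have hs0 : s 0 = f 0 0 := hs 0
  have hs1 : ∀ n, s (n + 1) = f (n + 1) (s n) := by
    intro n
    rw [hs (n + 1), hs n]
  have hp : ∀ n : ℕ, (∀ w ∈ closedBall (0 : ℂ) (1 - 1 / ((n : ℝ) + 1)), dist (φ w) (χ (s n) w) < 1 / ((n : ℝ) + 1)) ∧
      dist (u (s n)) u0 < 1 / ((n : ℝ) + 1) := by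
    intro n
    cases n with
    | zero => rw [hs0]; exact (hf 0 0).2
    | succ n => rw [hs1]; exact (hf (n + 1) (s n)).2
  have hlim : Tendsto (fun n : ℕ => 1 / ((n : ℝ) + 1)) atTop (𝓝 0) := tendsto_one_div_add_atTop_nhds_zero_nat
  refine ⟨s, strictMono_nat_of_lt_succ fun n => ?_, ?_, ?_⟩
  · rw [hs1]
    exact (hf (n + 1) (s n)).1
  · rw [tendstoLocallyUniformlyOn_iff_forall_isCompact isOpen_ball]
    intro K hK hKc
    obtain ⟨r, hr, hKr⟩ : ∃ r : ℝ, r < 1 ∧ K ⊆ closedBall 0 r := by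
      rcases K.eq_empty_or_nonempty with h0 | h0
      · exact ⟨0, one_pos, by rw [h0]; exact empty_subset _⟩
      · obtain ⟨z, hz, hz2⟩ := hKc.exists_isMaxOn h0 continuous_norm.continuousOn
        exact ⟨‖z‖, mem_ball_zero_iff.1 (hK hz), fun y hy => mem_closedBall_zero_iff.2 (hz2 hy)⟩
    rw [Metric.tendstoUniformlyOn_iff]
    intro ε hε
    filter_upwards [hlim.eventually (eventually_lt_nhds hε), hlim.eventually (eventually_lt_nhds (show (0 : ℝ) < 1 - r by linarith))] with n h1 h2 w hw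
    refine ((hp n).1 w ?_).trans h1
    exact closedBall_subset_closedBall (by linarith) (hKr hw)
  · rw [Metric.tendsto_nhds]
    intro ε hε
    filter_upwards [hlim.eventually (eventually_lt_nhds hε)] with n h1
    exact (hp n).2.trans h1

private theorem cq {a b : ℂ} (ha : a ≠ 0) (hb : b ≠ 0) : ‖(starRingEnd ℂ) a / a - (starRingEnd ℂ) b / b‖ ≤ 2 * ‖a - b‖ / ‖b‖ := by
  have h1 : (starRingEnd ℂ) a / a - (starRingEnd ℂ) b / b = ((starRingEnd ℂ) a * (b - a) + a * (starRingEnd ℂ) (a - b)) / (a * b) := by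
    rw [map_sub]
    field_simp
    ring
  have ha' := norm_pos_iff.2 ha
  have hb' := norm_pos_iff.2 hb
  rw [h1, norm_div, norm_mul, div_le_div_iff₀ (by positivity) hb']
  have h2 := norm_add_le ((starRingEnd ℂ) a * (b - a)) (a * (starRingEnd ℂ) (a - b))
  rw [norm_mul, norm_mul, RCLike.norm_conj, RCLike.norm_conj, norm_sub_rev b a] at h2
  have h3 : ‖(starRingEnd ℂ) a * (b - a) + a * (starRingEnd ℂ) (a - b)‖ * ‖b‖ ≤ (‖a‖ * ‖a - b‖ + ‖a‖ * ‖a - b‖) * ‖b‖ :=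
    mul_le_mul_of_nonneg_right h2 hb'.le
  calc _ ≤ _ := h3
    _ = _ := by ring

private theorem cqn {a : ℂ} (ha : a ≠ 0) : ‖(starRingEnd ℂ) a / a‖ = 1 := by
  rw [norm_div, RCLike.norm_conj, div_self (norm_ne_zero_iff.2 ha)]

/-- the part of the disc where `μ` is not near `c` is small -/
private theorem bad {μ : ℂ → ℂ} {x c : ℂ} (hμ : AC μ x c) {ψ : ℕ → ℂ → ℂ}
    (hψ : ∀ j, DifferentiableOn ℂ (ψ j) (ball 0 1)) (hi : ∀ j, InjOn (ψ j) (ball 0 1)) {t : ℝ} (ht : t < 1) {w : ℕ → ℂ}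
    (hw : ∀ j, ‖w j‖ ≤ t) (h0 : ∀ j, ψ j (w j) = x) (hd : Tendsto (fun j => deriv (ψ j) 0) atTop (𝓝 0)) {r : ℝ} (hr : r < 1)
    {ε : ℝ} (hε : 0 < ε) :
    Tendsto (fun j => volume {z ∈ closedBall (0 : ℂ) r | ε ≤ ‖μ (ψ j z) - c‖}) atTop (𝓝 0) := by
  obtain ⟨q, hq⟩ : ∃ q : ℝ, q = max r t := ⟨_, rfl⟩
  have hq1 : q < 1 := by rw [hq]; exact max_lt hr ht
  have hrq : r ≤ q := by rw [hq]; exact le_max_left _ _
  have htq : t ≤ q := by rw [hq]; exact le_max_right _ _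
  have hq0 : 0 ≤ q := ((norm_nonneg _).trans (hw 0)).trans htq
  obtain ⟨C, hC⟩ : ∃ C : ℝ, C = 2 * K1 q + 1 := ⟨_, rfl⟩
  have hC0 : 0 < C := by rw [hC]; linarith [K1_pos q]
  have hd0 : ∀ j, deriv (ψ j) 0 ≠ 0 := fun j => uh_der isOpen_ball (hψ j) (hi j) (mem_ball_self one_pos)
  have hdp : ∀ j, 0 < ‖deriv (ψ j) 0‖ := fun j => norm_pos_iff.2 (hd0 j)
  -- the radii
  have hρ : Tendsto (fun j => C * ‖deriv (ψ j) 0‖) atTop (𝓝[>] 0) := by
    rw [tendsto_nhdsWithin_iff]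
    refine ⟨?_, Eventually.of_forall fun j => mul_pos hC0 (hdp j)⟩
    have := hd.norm.const_mul C
    rwa [norm_zero, mul_zero] at this
  have hA := (hμ ε hε).comp hρ
  -- the estimate
  have hle : ∀ j, volume {z ∈ closedBall (0 : ℂ) r | ε ≤ ‖μ (ψ j z) - c‖} ≤
      ENNReal.ofReal (K1 q ^ 2 * (C ^ 2 * Real.pi)) * (volume (ball x (C * ‖deriv (ψ j) 0‖) ∩ {z | ε ≤ ‖μ z - c‖}) / volume (ball x (C * ‖deriv (ψ j) 0‖))) := by
    intro j
    obtain ⟨S, hS⟩ : ∃ S : Set ℂ, S = ball x (C * ‖deriv (ψ j) 0‖) ∩ {z | ε ≤ ‖μ z - c‖} := ⟨_, rfl⟩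
    rw [← hS, ← measure_toMeasurable S]
    have h1 : {z ∈ closedBall (0 : ℂ) r | ε ≤ ‖μ (ψ j z) - c‖} ⊆ {z ∈ closedBall (0 : ℂ) q | ψ j z ∈ toMeasurable volume S} := by
      rintro z ⟨hz1, hz2⟩
      refine ⟨closedBall_subset_closedBall hrq hz1, subset_toMeasurable _ _ ?_⟩
      rw [hS]
      refine ⟨?_, hz2⟩
      rw [mem_ball, dist_eq_norm, ← h0 j]
      have h2 := img_le (hψ j) (hi j) hq0 hq1 (mem_closedBall_zero_iff.1 (closedBall_subset_closedBall hrq hz1)) ((hw j).trans htq)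
      refine h2.trans_lt ?_
      rw [hC]
      nlinarith [hdp j]
    refine (measure_mono h1).trans ?_
    have h3 := bad_le (hψ j) (hi j) hq0 hq1 (measurableSet_toMeasurable volume S)
    have hD : (0 : ℝ) < ‖deriv (ψ j) 0‖ ^ 2 := by have := hdp j; positivity
    have h4 : volume (ball x (C * ‖deriv (ψ j) 0‖)) = ENNReal.ofReal (C ^ 2 * Real.pi) * ENNReal.ofReal (‖deriv (ψ j) 0‖ ^ 2) := by
      rw [Complex.volume_ball, ← ENNReal.ofReal_pow (by have := hdp j; positivity), ← ENNReal.ofReal_mul (by positivity),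
        ← ENNReal.ofReal_coe_nnreal, NNReal.coe_real_pi, ← ENNReal.ofReal_mul (by positivity)]
      congr 1
      ring
    have hD1 : ENNReal.ofReal (‖deriv (ψ j) 0‖ ^ 2) ≠ 0 := by
      rw [Ne, ENNReal.ofReal_eq_zero]
      linarith
    have hC1 : ENNReal.ofReal (C ^ 2 * Real.pi) ≠ 0 := by
      rw [Ne, ENNReal.ofReal_eq_zero]
      have : 0 < C ^ 2 * Real.pi := mul_pos (by positivity) Real.pi_pos
      linarith
    have h5 : volume {z ∈ closedBall (0 : ℂ) q | ψ j z ∈ toMeasurable volume S} ≤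
        ENNReal.ofReal (K1 q ^ 2) * volume (toMeasurable volume S) / ENNReal.ofReal (‖deriv (ψ j) 0‖ ^ 2) := by
      rw [ENNReal.le_div_iff_mul_le (Or.inl hD1) (Or.inl ENNReal.ofReal_ne_top)]
      exact h3
    refine h5.trans (le_of_eq ?_)
    rw [h4, ENNReal.ofReal_mul (by positivity)]
    rw [ENNReal.div_eq_inv_mul, ENNReal.div_eq_inv_mul, ENNReal.mul_inv (Or.inr ENNReal.ofReal_ne_top) (Or.inr hD1)]
    have h6 : ENNReal.ofReal (C ^ 2 * Real.pi) * (ENNReal.ofReal (C ^ 2 * Real.pi))⁻¹ = 1 := ENNReal.mul_inv_cancel hC1 ENNReal.ofReal_ne_top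
    calc _ = (ENNReal.ofReal (C ^ 2 * Real.pi) * (ENNReal.ofReal (C ^ 2 * Real.pi))⁻¹) *
          ((ENNReal.ofReal (‖deriv (ψ j) 0‖ ^ 2))⁻¹ * (ENNReal.ofReal (K1 q ^ 2) * volume (toMeasurable volume S))) := by rw [h6, one_mul]
      _ = _ := by ring
  refine tendsto_of_tendsto_of_tendsto_of_le_of_le tendsto_const_nhds ?_ (fun j => bot_le) hle
  have h7 := ENNReal.Tendsto.const_mul (a := ENNReal.ofReal (K1 q ^ 2 * (C ^ 2 * Real.pi))) hA (Or.inr ENNReal.ofReal_ne_top)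
  rw [mul_zero] at h7
  exact h7

theorem scw {μ : ℂ → ℂ} {x c : ℂ} (hc : ‖c‖ = 1) (hμ : AC μ x c) {ψ : ℕ → ℂ → ℂ}
    (hψ : ∀ j, DifferentiableOn ℂ (ψ j) (ball 0 1)) (hi : ∀ j, InjOn (ψ j) (ball 0 1)) {t : ℝ} (ht : t < 1) {w : ℕ → ℂ}
    (hw : ∀ j, ‖w j‖ ≤ t) (h0 : ∀ j, ψ j (w j) = x) (hd : Tendsto (fun j => deriv (ψ j) 0) atTop (𝓝 0)) :
    ∃ (s : ℕ → ℕ) (φ : ℂ → ℂ) (c' : ℂ), StrictMono s ∧ ‖c'‖ = 1 ∧ DifferentiableOn ℂ φ (ball 0 1) ∧
      InjOn φ (ball 0 1) ∧ (∀ w ∈ ball (0 : ℂ) 1, deriv φ w ≠ 0) ∧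
      FCv (fun j w => μ (ψ (s j) w) * (starRingEnd ℂ) (deriv (ψ (s j)) w) / deriv (ψ (s j)) w) φ c' := by
  have ht0 : 0 ≤ t := (norm_nonneg _).trans (hw 0)
  obtain ⟨𝒰, h𝒰⟩ : ∃ 𝒰 : Ultrafilter ℕ, (𝒰 : Filter ℕ) ≤ atTop := ⟨Ultrafilter.of atTop, Ultrafilter.of_le atTop⟩
  have hd0 : ∀ j, deriv (ψ j) 0 ≠ 0 := fun j => uh_der isOpen_ball (hψ j) (hi j) (mem_ball_self one_pos)
  -- the normalised maps
  obtain ⟨χ, hχ⟩ : ∃ χ : ℕ → ℂ → ℂ, ∀ j z, χ j z = (ψ j z - x) / deriv (ψ j) 0 := ⟨fun j z => (ψ j z - x) / deriv (ψ j) 0, fun j z => rfl⟩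
  have hχd : ∀ j, DifferentiableOn ℂ (χ j) (ball 0 1) := by
    intro j
    have h1 : χ j = fun z => (ψ j z - x) / deriv (ψ j) 0 := funext (hχ j)
    rw [h1]
    exact ((hψ j).sub_const _).div_const _
  have hχi : ∀ j, InjOn (χ j) (ball 0 1) := by
    intro j a ha b hb hab
    rw [hχ, hχ, div_left_inj' (hd0 j), sub_left_inj] at hab
    exact hi j ha hb hab
  have hχ' : ∀ j, ∀ z ∈ ball (0 : ℂ) 1, deriv (χ j) z = deriv (ψ j) z / deriv (ψ j) 0 := by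
    intro j z hz
    have h1 : χ j = fun z => (ψ j z - x) / deriv (ψ j) 0 := funext (hχ j)
    rw [h1]
    exact ((((hψ j).differentiableAt (isOpen_ball.mem_nhds hz)).hasDerivAt.sub_const x).div_const _).deriv
  have h01 : (0 : ℂ) ∈ ball (0 : ℂ) 1 := mem_ball_self one_pos
  have hχ1 : ∀ j, deriv (χ j) 0 = 1 := fun j => by rw [hχ' j 0 h01, div_self (hd0 j)]
  obtain ⟨φ, φd, φt⟩ := um 𝒰 isOpen_ball (Eventually.of_forall hχd) (fun u hu => by
    have hu1 := mem_ball_zero_iff.1 hu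
    obtain ⟨t', ht'⟩ : ∃ t' : ℝ, t' = max t ((1 + ‖u‖) / 2) := ⟨_, rfl⟩
    have ht1 : t' < 1 := by
      rw [ht']
      exact max_lt ht (by linarith)
    have htt : t ≤ t' := by rw [ht']; exact le_max_left _ _
    have hsub : ball u ((1 - ‖u‖) / 2) ⊆ ball (0 : ℂ) 1 := by
      intro y hy
      rw [mem_ball, dist_eq_norm] at hy
      rw [mem_ball_zero_iff]
      have h2 := norm_add_le (y - u) u
      rw [sub_add_cancel] at h2
      linarith
    refine ⟨(1 - ‖u‖) / 2, 2 * K1 t' * 1, by linarith, hsub, Eventually.of_forall fun n v hv => ?_⟩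
    have h2 : ‖v‖ ≤ t' := by
      rw [mem_ball, dist_eq_norm] at hv
      have h5 := norm_add_le (v - u) u
      rw [sub_add_cancel] at h5
      have h6 : (1 + ‖u‖) / 2 ≤ t' := by
        rw [ht']
        exact le_max_right _ _
      linarith
    have h3 := img_le (hχd n) (hχi n) (ht0.trans htt) ht1 h2 ((hw n).trans htt)
    have h4 : χ n (w n) = 0 := by rw [hχ, h0, sub_self, zero_div]
    rwa [h4, sub_zero, hχ1, norm_one] at h3)
  have φi : InjOn φ (ball 0 1) := by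
    refine uh_inj 𝒰 isOpen_ball (convex_ball (0 : ℂ) 1).isPreconnected (Eventually.of_forall hχd) φt (Eventually.of_forall hχi) ⟨0, h01, ?_⟩
    have h2 : Tendsto (fun n => deriv (χ n) 0) (𝒰 : Filter ℕ) (𝓝 (deriv φ 0)) :=
      (φt.deriv (Eventually.of_forall hχd) isOpen_ball).tendsto_at h01
    have h3 : Tendsto (fun n => deriv (χ n) 0) (𝒰 : Filter ℕ) (𝓝 1) := by
      simp only [hχ1]
      exact tendsto_const_nhds
    rw [tendsto_nhds_unique h2 h3]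
    exact one_ne_zero
  have φ0 : ∀ z ∈ ball (0 : ℂ) 1, deriv φ z ≠ 0 := fun z hz => uh_der isOpen_ball φd φi hz
  obtain ⟨u0, hu0, -⟩ := ul_ex 𝒰 (z := fun j => (starRingEnd ℂ) (deriv (ψ j) 0) / deriv (ψ j) 0) (M := 1)
    (Eventually.of_forall fun j => (cqn (hd0 j)).le)
  obtain ⟨s, hs, hsφ, hsu⟩ := subs h𝒰 φt hu0
  have hu1 : ‖u0‖ = 1 := by
    refine tendsto_nhds_unique hsu.norm ?_
    simp only [cqn (hd0 _)]
    exact tendsto_const_nhds
  refine ⟨s, φ, c * u0, hs, by rw [norm_mul, hc, hu1, one_mul], φd, φi, φ0, ?_⟩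
  -- convergence in measure
  intro r hr ε hε
  have hb := bad hμ (ψ := fun j => ψ (s j)) (fun j => hψ (s j)) (fun j => hi (s j)) ht (w := fun j => w (s j)) (fun j => hw (s j))
    (fun j => h0 (s j)) (hd.comp hs.tendsto_atTop) hr (half_pos hε)
  have hsub : closedBall (0 : ℂ) r ⊆ ball 0 1 := closedBall_subset_ball hr
  obtain ⟨m, hm, hmφ⟩ : ∃ m : ℝ, 0 < m ∧ ∀ z ∈ closedBall (0 : ℂ) r, m ≤ ‖deriv φ z‖ := by
    rcases (closedBall (0 : ℂ) r).eq_empty_or_nonempty with h | h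
    · exact ⟨1, one_pos, fun z hz => by rw [h] at hz; exact absurd hz (notMem_empty z)⟩
    · have h1 : ContinuousOn (fun z => ‖deriv φ z‖) (closedBall (0 : ℂ) r) := ((φd.deriv isOpen_ball).continuousOn.mono hsub).norm
      obtain ⟨z, hz, hz2⟩ := (isCompact_closedBall (0 : ℂ) r).exists_isMinOn h h1
      exact ⟨‖deriv φ z‖, norm_pos_iff.2 (φ0 z (hsub hz)), fun y hy => hz2 hy⟩
  have hU := (tendstoLocallyUniformlyOn_iff_forall_isCompact isOpen_ball).1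
    (hsφ.deriv (Eventually.of_forall fun j => hχd (s j)) isOpen_ball) _ hsub (isCompact_closedBall _ _)
  have hU1 := Metric.tendstoUniformlyOn_iff.1 hU (ε / 8 * m) (by positivity)
  have hU2 := Metric.tendsto_nhds.1 hsu (ε / 4) (by positivity)
  refine tendsto_of_tendsto_of_tendsto_of_le_of_le' tendsto_const_nhds hb (Eventually.of_forall fun j => bot_le) ?_
  filter_upwards [hU1, hU2] with j k1 k2
  refine measure_mono ?_
  rintro z ⟨hz1, hz2⟩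
  have hz3 : z ∈ closedBall (0 : ℂ) r := ball_subset_closedBall hz1
  have hz4 := hsub hz3
  refine ⟨hz3, ?_⟩
  have hz5 : ε ≤ ‖μ (ψ (s j) z) * (starRingEnd ℂ) (deriv (ψ (s j)) z) / deriv (ψ (s j)) z - c * u0 * (starRingEnd ℂ) (deriv φ z) / deriv φ z‖ := hz2
  have hψz : deriv (ψ (s j)) z ≠ 0 := uh_der isOpen_ball (hψ (s j)) (hi (s j)) hz4
  have hχz : deriv (χ (s j)) z ≠ 0 := uh_der isOpen_ball (hχd (s j)) (hχi (s j)) hz4
  have e1 : (starRingEnd ℂ) (deriv (ψ (s j)) z) / deriv (ψ (s j)) z =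
      (starRingEnd ℂ) (deriv (ψ (s j)) 0) / deriv (ψ (s j)) 0 * ((starRingEnd ℂ) (deriv (χ (s j)) z) / deriv (χ (s j)) z) := by
    rw [hχ' _ z hz4, map_div₀]
    have h1 := hd0 (s j)
    have h2 : (starRingEnd ℂ) (deriv (ψ (s j)) 0) ≠ 0 := (map_ne_zero _).2 h1
    field_simp
  have e2 := cq hχz (φ0 z hz4)
  have e3 : ‖deriv (χ (s j)) z - deriv φ z‖ < ε / 8 * m := by
    have := k1 z hz3
    rwa [dist_comm, dist_eq_norm] at this
  have e4 : ‖(starRingEnd ℂ) (deriv (χ (s j)) z) / deriv (χ (s j)) z - (starRingEnd ℂ) (deriv φ z) / deriv φ z‖ ≤ ε / 4 := by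
    refine e2.trans ?_
    rw [div_le_iff₀ (norm_pos_iff.2 (φ0 z hz4))]
    have := hmφ z hz3
    nlinarith
  have e5 : ‖(starRingEnd ℂ) (deriv (ψ (s j)) 0) / deriv (ψ (s j)) 0 - u0‖ ≤ ε / 4 := by
    have : dist ((starRingEnd ℂ) (deriv (ψ (s j)) 0) / deriv (ψ (s j)) 0) u0 < ε / 4 := k2
    rw [dist_eq_norm] at this
    exact this.le
  obtain ⟨A, hA⟩ : ∃ A, A = (starRingEnd ℂ) (deriv (ψ (s j)) 0) / deriv (ψ (s j)) 0 := ⟨_, rfl⟩
  obtain ⟨B, hB⟩ : ∃ B, B = (starRingEnd ℂ) (deriv (χ (s j)) z) / deriv (χ (s j)) z := ⟨_, rfl⟩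
  obtain ⟨D, hD⟩ : ∃ D, D = (starRingEnd ℂ) (deriv φ z) / deriv φ z := ⟨_, rfl⟩
  have nA : ‖A‖ = 1 := by rw [hA]; exact cqn (hd0 _)
  have nB : ‖B‖ = 1 := by rw [hB]; exact cqn hχz
  have nD : ‖D‖ = 1 := by rw [hD]; exact cqn (φ0 z hz4)
  rw [mul_div_assoc, mul_div_assoc, e1, ← hA, ← hB, ← hD] at hz5
  rw [← hB, ← hD] at e4
  rw [← hA] at e5
  have e6 : μ (ψ (s j) z) * (A * B) - c * u0 * D = (μ (ψ (s j) z) - c) * (A * B) + c * (A * (B - D) + (A - u0) * D) := by ring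
  rw [e6] at hz5
  have e7 := norm_add_le ((μ (ψ (s j) z) - c) * (A * B)) (c * (A * (B - D) + (A - u0) * D))
  rw [norm_mul, norm_mul, norm_mul, nA, nB, hc, one_mul, mul_one, one_mul] at e7
  have e8 := norm_add_le (A * (B - D)) ((A - u0) * D)
  rw [norm_mul, norm_mul, nA, nD, one_mul, mul_one] at e8
  show ε / 2 ≤ ‖μ (ψ (s j) z) - c‖
  linarith

end Pool.Agent.H47.OI
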