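import Mathlib

/-!
# THE 0-1-INFINITY LAW FOR INVARIANT LINE FIELDS (think 2340): definitions

`Prp W F`: `F` is a proper holomorphic map of the open connected set `W` to the unit disc. `PF W F φ`: the field of `φ` (a univalent function) can be pushed forward by `F`.
`AC μ x c`: `μ` is approximately continuous at `x` with the value `c`. `IV U F μ`: invariance of the field `μ` under `F` on `U` (up to a null set). `FCv`: convergence of the fields `ν j` to the field of `φ` in measure on compact sets.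
-/

set_option autoImplicit false

open Filter Topology Metric Set MeasureTheory

namespace Pool.Agent.H47.OI

/-- `F` is a proper holomorphic map of the open connected set `W` to the unit disc -/
structure Prp (W : Set ℂ) (F : ℂ → ℂ) : Prop where
  op : IsOpen W
  pc : IsPreconnected W
  df : DifferentiableOn ℂ F W
  lt : ∀ w ∈ W, ‖F w‖ < 1
  pr : ∀ r : ℝ, r < 1 → IsCompact (W ∩ {w | ‖F w‖ ≤ r})

/-- the quadratic differential `φ' ^ 2` can be pushed forward by `F`, up to positive factors -/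
def PF (W : Set ℂ) (F φ : ℂ → ℂ) : Prop :=
  ∀ a ∈ W, ∀ b ∈ W, F a = F b → deriv F a ≠ 0 → deriv F b ≠ 0 →
    ∃ t : ℝ, 0 < t ∧ (deriv φ a * deriv F b) ^ 2 = t * (deriv φ b * deriv F a) ^ 2

/-- `μ` is approximately continuous at `x` with the value `c` -/
def AC (μ : ℂ → ℂ) (x c : ℂ) : Prop :=
  ∀ ε : ℝ, 0 < ε → Tendsto (fun ρ : ℝ => volume (ball x ρ ∩ {z | ε ≤ ‖μ z - c‖}) / volume (ball x ρ)) (𝓝[>] 0) (𝓝 0)

/-- the field `μ` is invariant under `F` on `U` (can be pushed forward) -/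
def IV (U : Set ℂ) (F μ : ℂ → ℂ) : Prop :=
  ∃ Z : Set ℂ, volume Z = 0 ∧ ∀ a ∈ U, a ∉ Z → ∀ b ∈ U, b ∉ Z → F a = F b → deriv F a ≠ 0 → deriv F b ≠ 0 →
    μ a * deriv F a * (starRingEnd ℂ) (deriv F b) = μ b * deriv F b * (starRingEnd ℂ) (deriv F a)

/-- the fields `ν j` converge to the field of `φ` in measure on the compact subsets of the unit disc -/
def FCv (ν : ℕ → ℂ → ℂ) (φ : ℂ → ℂ) (c : ℂ) : Prop :=
  ∀ r : ℝ, r < 1 → ∀ ε : ℝ, 0 < ε → Tendsto (fun j : ℕ =>
    volume (ball (0 : ℂ) r ∩ {w | ε ≤ ‖ν j w - c * (starRingEnd ℂ) (deriv φ w) / deriv φ w‖})) atTop (𝓝 0)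

end Pool.Agent.H47.OI
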