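import Pool.Agent.H47.OI.Defs

/-!
# Module Sym: a local half turn of a proper map is a global one; there is at most one

PROOF of `sym`. `R z = 2 p - z`. `C = connectedComponentIn (W ∩ R ⁻¹' W) p`, open, preconnected; `F (R z) = F z` on `C` (identity theorem from `p`). `C = W`: `C` is open and nonempty; let `z0 ∈ W` be in the closure of `C`, `z_k → z0`, `z_k ∈ C`. `‖F (z_k)‖ → ‖F z0‖ < 1`, so with `r` between, `R z_k ∈ W ∩ {‖F‖ ≤ r}` for large `k`, compact: `R z0 ∈ W`,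
`z0 ∈ W ∩ R ⁻¹' W`, an open set; a small ball at `z0` in it meets `C`, so `z0 ∈ C`. So `C` is clopen in the preconnected `W`.
PROOF of `two`. `p + 2 n (q - p) ∈ W` and `F` has the value `F p` there (`n` by induction: `R_q R_p z = z + 2 (q - p)`). They are in the compact, so bounded, set `W ∩ {‖F‖ ≤ ‖F p‖}`; `p = q`.
-/

set_option autoImplicit false

open Filter Topology Metric Set MeasureTheory

namespace Pool.Agent.H47.OI

theorem sym {W : Set ℂ} {F : ℂ → ℂ} {p : ℂ} (h : Prp W F) (hp : p ∈ W) (hs : ∀ᶠ z in 𝓝 p, F (2 * p - z) = F z) :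
    ∀ z ∈ W, 2 * p - z ∈ W ∧ F (2 * p - z) = F z := by
  have hRc : Continuous fun z : ℂ => 2 * p - z := continuous_const.sub continuous_id
  have hSo : IsOpen (W ∩ (fun z : ℂ => 2 * p - z) ⁻¹' W) := h.op.inter (h.op.preimage hRc)
  have hRp : 2 * p - p = p := by ring
  have hpS : p ∈ W ∩ (fun z : ℂ => 2 * p - z) ⁻¹' W := ⟨hp, by show 2 * p - p ∈ W; rw [hRp]; exact hp⟩
  set S : Set ℂ := W ∩ (fun z : ℂ => 2 * p - z) ⁻¹' W with hSdef
  set C : Set ℂ := connectedComponentIn S p with hCdef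
  have hCo : IsOpen C := hSo.connectedComponentIn
  have hCp : IsPreconnected C := isPreconnected_connectedComponentIn
  have hCS : C ⊆ S := connectedComponentIn_subset S p
  have hpC : p ∈ C := mem_connectedComponentIn hpS
  have hA : AnalyticOnNhd ℂ F W := h.df.analyticOnNhd h.op
  have hA1 : AnalyticOnNhd ℂ F C := fun z hz => hA z (hCS hz).1
  have hA2 : AnalyticOnNhd ℂ (fun z : ℂ => F (2 * p - z)) C := fun z hz =>
    (hA (2 * p - z) (hCS hz).2).comp (analyticAt_const.sub analyticAt_id)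
  have hE : EqOn (fun z : ℂ => F (2 * p - z)) F C :=
    hA2.eqOn_of_preconnected_of_eventuallyEq hA1 hCp hpC hs
  have hcl : closure C ∩ W ⊆ C := by
    rintro z0 ⟨hz0, hz0W⟩
    obtain ⟨r, hr0, hr1⟩ := exists_between (h.lt z0 hz0W)
    have hK : IsCompact (W ∩ {w | ‖F w‖ ≤ r}) := h.pr r hr1
    have hFc : ContinuousAt F z0 := (hA z0 hz0W).continuousAt
    have hN : ∀ᶠ z in 𝓝 z0, ‖F z‖ < r := hFc.norm.eventually (gt_mem_nhds hr0)
    have hmem : 2 * p - z0 ∈ closure (W ∩ {w | ‖F w‖ ≤ r}) := by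
      rw [mem_closure_iff_frequently]
      have h1 : ∃ᶠ z in 𝓝 z0, z ∈ C := mem_closure_iff_frequently.1 hz0
      have h2 : ∃ᶠ z in 𝓝 z0, 2 * p - z ∈ W ∩ {w | ‖F w‖ ≤ r} := by
        refine (h1.and_eventually hN).mono ?_
        rintro z ⟨hzC, hzN⟩
        refine ⟨(hCS hzC).2, ?_⟩
        show ‖F (2 * p - z)‖ ≤ r
        have : F (2 * p - z) = F z := hE hzC
        rw [this]
        exact hzN.le
      have h3 : Tendsto (fun z : ℂ => 2 * p - z) (𝓝 z0) (𝓝 (2 * p - z0)) := hRc.tendsto z0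
      exact h3.frequently h2
    rw [hK.isClosed.closure_eq] at hmem
    have hz0S : z0 ∈ S := ⟨hz0W, hmem.1⟩
    obtain ⟨ε, hε, hball⟩ := Metric.isOpen_iff.1 hSo z0 hz0S
    obtain ⟨y, hyb, hyC⟩ := mem_closure_iff_nhds.1 hz0 (ball z0 ε) (ball_mem_nhds z0 hε)
    have hU : IsPreconnected (C ∪ ball z0 ε) :=
      IsPreconnected.union y hyC hyb hCp (convex_ball z0 ε).isPreconnected
    have hsub : C ∪ ball z0 ε ⊆ C := by
      rw [hCdef]
      exact hU.subset_connectedComponentIn (Or.inl hpC) (union_subset hCS hball)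
    exact hsub (Or.inr (mem_ball_self hε))
  have hWC : W ⊆ C := h.pc.subset_of_closure_inter_subset hCo ⟨p, hp, hpC⟩ hcl
  intro z hz
  exact ⟨(hCS (hWC hz)).2, hE (hWC hz)⟩

theorem two {W : Set ℂ} {F : ℂ → ℂ} {p q : ℂ} (h : Prp W F) (hp : p ∈ W) (_hq : q ∈ W)
    (h1 : ∀ z ∈ W, 2 * p - z ∈ W ∧ F (2 * p - z) = F z) (h2 : ∀ z ∈ W, 2 * q - z ∈ W ∧ F (2 * q - z) = F z) : p = q := by
  have hn : ∀ n : ℕ, p + 2 * (n : ℂ) * (q - p) ∈ W ∧ F (p + 2 * (n : ℂ) * (q - p)) = F p := by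
    intro n
    induction n with
    | zero =>
      have : p + 2 * ((0 : ℕ) : ℂ) * (q - p) = p := by push_cast; ring
      rw [this]
      exact ⟨hp, rfl⟩
    | succ n ih =>
      obtain ⟨a1, a2⟩ := h1 _ ih.1
      obtain ⟨b1, b2⟩ := h2 _ a1
      have he : 2 * q - (2 * p - (p + 2 * (n : ℂ) * (q - p))) =
          p + 2 * ((n + 1 : ℕ) : ℂ) * (q - p) := by push_cast; ring
      rw [he] at b1 b2
      exact ⟨b1, by rw [b2, a2, ih.2]⟩
  have hb : Bornology.IsBounded (W ∩ {w | ‖F w‖ ≤ ‖F p‖}) := (h.pr _ (h.lt p hp)).isBounded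
  obtain ⟨M, hM⟩ := hb.exists_norm_le
  by_contra hpq
  have hd : 0 < ‖q - p‖ := norm_pos_iff.2 (sub_ne_zero.2 (Ne.symm hpq))
  obtain ⟨n, hnn⟩ := exists_nat_gt ((M + ‖p‖) / ‖q - p‖)
  have hx := hM (p + 2 * (n : ℂ) * (q - p)) ⟨(hn n).1, by
    show ‖F (p + 2 * (n : ℂ) * (q - p))‖ ≤ ‖F p‖
    rw [(hn n).2]⟩
  have h3 : ‖2 * (n : ℂ) * (q - p)‖ ≤ M + ‖p‖ := by
    have h4 : 2 * (n : ℂ) * (q - p) = (p + 2 * (n : ℂ) * (q - p)) - p := by ring
    rw [h4]
    exact (norm_sub_le _ _).trans (by linarith)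
  have h5 : ‖2 * (n : ℂ) * (q - p)‖ = 2 * n * ‖q - p‖ := by
    rw [norm_mul, norm_mul]
    norm_num
  rw [h5] at h3
  rw [div_lt_iff₀ hd] at hnn
  nlinarith [norm_nonneg p, Nat.cast_nonneg (α := ℝ) n]

end Pool.Agent.H47.OI
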