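import Pool.Agent.H47.OI.Half
import Pool.Agent.H47.OI.Sym
import Pool.Agent.H39.HO.PB
import Pool.Agent.H80.AJ.Distort

/-!
# Module Exl: the exact law

PROOF. `W' = φ '' W`, `G = F ∘ φ⁻¹` (`Function.invFunOn`), `Prp W' G` (open mapping, injective holomorphic: the inverse is holomorphic), `PF W' G id` (`G' (φ a) φ' (a) = F' (a)`; `φ' ≠ 0` since `φ` is injective). `half`, `sym`, `two` for `G`. `G'` vanishes at `φ p` iff `F' (p) = 0`; `F'' (p) = G'' (φ p) φ' (p) ^ 2 + G' (φ p) φ'' (p)`.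
-/

set_option autoImplicit false

open Filter Topology Metric Set MeasureTheory

namespace Pool.Agent.H47.OI

theorem exl {W : Set ℂ} {F φ : ℂ → ℂ} (h : Prp W F) (hφ : DifferentiableOn ℂ φ W) (hφi : InjOn φ W) (hPF : PF W F φ)
    (hnc : ∀ p ∈ W, ¬ ∀ᶠ z in 𝓝 p, F z = F p) :
    (∀ p ∈ W, deriv F p = 0 → deriv (deriv F) p ≠ 0) ∧
      ∀ p ∈ W, ∀ q ∈ W, deriv F p = 0 → deriv F q = 0 → p = q := by
  have hW := h.op
  obtain ⟨k, hk⟩ : ∃ k, k = Function.invFunOn φ W := ⟨_, rfl⟩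
  have hkmem : ∀ w ∈ φ '' W, k w ∈ W := fun w hw => by
    rw [hk]
    exact Function.invFunOn_mem hw
  have hkeq : ∀ w ∈ φ '' W, φ (k w) = w := fun w hw => by
    rw [hk]
    exact Function.invFunOn_eq hw
  have hkg : ∀ y ∈ W, k (φ y) = y := fun y hy =>
    hφi (hkmem _ (mem_image_of_mem φ hy)) hy (hkeq _ (mem_image_of_mem φ hy))
  have hkd : DifferentiableOn ℂ k (φ '' W) := hk ▸ Pool.Agent.H39.HO.inj_hol hW hφ hφi
  have hW' : IsOpen (φ '' W) := Pool.Agent.H39.HO.inj_open hW hφ hφi subset_rfl hW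
  -- the derivative of `φ`
  have hφ0 : ∀ p ∈ W, deriv φ p ≠ 0 := by
    intro p hp
    obtain ⟨r, hr, hrW⟩ := Metric.isOpen_iff.1 hW p hp
    exact norm_pos_iff.1 (Pool.Agent.H80.AJ.deriv_ne hr (hφ.mono hrW) (hφi.mono hrW) (mem_closedBall_self (by linarith)))
  obtain ⟨G, hG⟩ : ∃ G : ℂ → ℂ, G = fun z => F (k z) := ⟨_, rfl⟩
  have hGF : ∀ z ∈ W, G (φ z) = F z := by
    intro z hz
    rw [hG]
    show F (k (φ z)) = F z
    rw [hkg z hz]
  have hGd : DifferentiableOn ℂ G (φ '' W) := by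
    rw [hG]
    exact h.df.comp hkd hkmem
  have hφat : ∀ p ∈ W, DifferentiableAt ℂ φ p := fun p hp => hφ.differentiableAt (hW.mem_nhds hp)
  have hGat : ∀ p ∈ W, DifferentiableAt ℂ G (φ p) := fun p hp => hGd.differentiableAt (hW'.mem_nhds (mem_image_of_mem φ hp))
  have hev : ∀ p ∈ W, F =ᶠ[𝓝 p] fun z => G (φ z) := fun p hp => by
    filter_upwards [hW.mem_nhds hp] with z hz
    exact (hGF z hz).symm
  have hder : ∀ p ∈ W, deriv F p = deriv G (φ p) * deriv φ p := by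
    intro p hp
    rw [(hev p hp).deriv_eq]
    exact deriv_comp p (hGat p hp) (hφat p hp)
  have hz : ∀ p ∈ W, deriv F p = 0 ↔ deriv G (φ p) = 0 := by
    intro p hp
    rw [hder p hp]
    exact ⟨fun h1 => (mul_eq_zero.1 h1).resolve_right (hφ0 p hp), fun h1 => by rw [h1, zero_mul]⟩
  have hPrp : Prp (φ '' W) G := by
    refine ⟨hW', h.pc.image φ hφ.continuousOn, hGd, ?_, ?_⟩
    · rintro _ ⟨z, hz, rfl⟩
      rw [hGF z hz]
      exact h.lt z hz
    · intro r hr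
      have e : φ '' W ∩ {w | ‖G w‖ ≤ r} = φ '' (W ∩ {w | ‖F w‖ ≤ r}) := by
        ext y
        constructor
        · rintro ⟨⟨z, hz, rfl⟩, h2⟩
          refine ⟨z, ⟨hz, ?_⟩, rfl⟩
          show ‖F z‖ ≤ r
          rw [← hGF z hz]
          exact h2
        · rintro ⟨z, ⟨hz, h2⟩, rfl⟩
          refine ⟨⟨z, hz, rfl⟩, ?_⟩
          show ‖G (φ z)‖ ≤ r
          rw [hGF z hz]
          exact h2
      rw [e]
      exact (h.pr r hr).image_of_continuousOn (hφ.continuousOn.mono inter_subset_left)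
  have hPF' : PF (φ '' W) G id := by
    rintro _ ⟨a, ha, rfl⟩ _ ⟨b, hb, rfl⟩ hab ha' hb'
    rw [hGF a ha, hGF b hb] at hab
    have h1 : deriv F a ≠ 0 := fun h2 => ha' ((hz a ha).1 h2)
    have h2 : deriv F b ≠ 0 := fun h2 => hb' ((hz b hb).1 h2)
    obtain ⟨t, ht, h3⟩ := hPF a ha b hb hab h1 h2
    refine ⟨t, ht, ?_⟩
    rw [hder a ha, hder b hb] at h3
    have h4 := hφ0 a ha
    have h5 := hφ0 b hb
    have h6 : (deriv φ a * deriv φ b) ^ 2 * (deriv G (φ b)) ^ 2 = (deriv φ a * deriv φ b) ^ 2 * (t * (deriv G (φ a)) ^ 2) := by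
      linear_combination h3
    have h7 := mul_left_cancel₀ (pow_ne_zero 2 (mul_ne_zero h4 h5)) h6
    rw [deriv_id, deriv_id, one_mul, one_mul]
    exact h7
  have hnc' : ∀ p ∈ W, ¬ ∀ᶠ z in 𝓝 (φ p), G z = G (φ p) := by
    intro p hp h1
    refine hnc p hp ?_
    have h2 := (hφat p hp).continuousAt.eventually h1
    filter_upwards [h2, hW.mem_nhds hp] with z hz hzW
    rw [← hGF z hzW, ← hGF p hp]
    exact hz
  have hhalf : ∀ p ∈ W, deriv F p = 0 → deriv (deriv G) (φ p) ≠ 0 ∧ ∀ᶠ z in 𝓝 (φ p), G (2 * φ p - z) = G z := fun p hp h0 =>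
    half hW' (mem_image_of_mem φ hp) hGd (hnc' p hp) ((hz p hp).1 h0) hPF'
  constructor
  · intro p hp h0 h2
    obtain ⟨h3, -⟩ := hhalf p hp h0
    apply h3
    have hG1 : DifferentiableAt ℂ (deriv G) (φ p) :=
      (hGd.deriv hW').differentiableAt (hW'.mem_nhds (mem_image_of_mem φ hp))
    have hφ1 : DifferentiableAt ℂ (deriv φ) p := (hφ.deriv hW).differentiableAt (hW.mem_nhds hp)
    have hev2 : deriv F =ᶠ[𝓝 p] fun z => deriv G (φ z) * deriv φ z := by
      filter_upwards [hW.mem_nhds hp] with z hz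
      exact hder z hz
    have h4 : HasDerivAt (fun z => deriv G (φ z) * deriv φ z)
        (deriv (deriv G) (φ p) * deriv φ p * deriv φ p + deriv G (φ p) * deriv (deriv φ) p) p :=
      (hG1.hasDerivAt.comp p (hφat p hp).hasDerivAt).mul hφ1.hasDerivAt
    rw [hev2.deriv_eq, h4.deriv, (hz p hp).1 h0, zero_mul, add_zero] at h2
    exact (mul_eq_zero.1 ((mul_eq_zero.1 h2).resolve_right (hφ0 p hp))).resolve_right (hφ0 p hp)
  · intro p hp q hq hp0 hq0
    apply hφi hp hq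
    exact two hPrp (mem_image_of_mem φ hp) (mem_image_of_mem φ hq)
      (sym hPrp (mem_image_of_mem φ hp) (hhalf p hp hp0).2) (sym hPrp (mem_image_of_mem φ hq) (hhalf q hq hq0).2)

end Pool.Agent.H47.OI
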