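import Pool.Agent.H47.OI.Defs
import Pool.Agent.H81.MM.Even

/-!
# Module Half: the local half turn at a critical point

PROOF. `F` is analytic and not constant near `p`, `F' (p) = 0`: `F z = F p + (g z) ^ k`, `k ≥ 2`, `g` analytic, `g p = 0`, `g' (p) ≠ 0` (order of vanishing and a `k`-th root). `τ z = g⁻¹ (ω g z)`, `ω = exp (2 π i / k)`: `F (τ z) = F z`, so `(τ' z) ^ 2 > 0` for `z ≠ p` near `p` by `PF`: `τ' ^ 2` is holomorphic and real, so constant `= ω ^ 2 = 1`,
`k = 2`, `τ' = - 1`, `τ z = 2 p - z`.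
-/

set_option autoImplicit false

open Filter Topology Metric Set MeasureTheory

namespace Pool.Agent.H47.OI

private theorem deck {F : ℂ → ℂ} {p : ℂ} (hA : AnalyticAt ℂ F p) (hnc : ¬ ∀ᶠ z in 𝓝 p, F z = F p)
    (h0 : deriv F p = 0) : ∃ (k : ℕ) (h τ : ℂ → ℂ), 2 ≤ k ∧ AnalyticAt ℂ h p ∧ h p ≠ 0 ∧
      (∀ᶠ z in 𝓝 p, F z = F p + (z - p) ^ k * h z) ∧ AnalyticAt ℂ τ p ∧ τ p = p ∧
      deriv τ p = Complex.exp (2 * Real.pi * Complex.I / k) ∧ ∀ᶠ z in 𝓝 p, F (τ z) = F z := by
  have hA1 : AnalyticAt ℂ (fun z => F z - F p) p := hA.sub analyticAt_const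
  have hne : ¬ ∀ᶠ z in 𝓝 p, F z - F p = 0 := fun h => hnc (h.mono fun z hz => sub_eq_zero.1 hz)
  obtain ⟨k, h, hh, hh0, heq⟩ := hA1.exists_eventuallyEq_pow_smul_nonzero_iff.2 hne
  have heq' : ∀ᶠ z in 𝓝 p, F z = F p + (z - p) ^ k * h z := by
    filter_upwards [heq] with z hz
    rw [smul_eq_mul] at hz
    linear_combination hz
  have hk0 : k ≠ 0 := by
    rintro rfl
    have := heq'.self_of_nhds
    rw [pow_zero, one_mul] at this
    apply hh0
    linear_combination -this
  have hk1 : k ≠ 1 := by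
    rintro rfl
    have h1 : F =ᶠ[𝓝 p] fun z => F p + (z - p) * h z := by
      filter_upwards [heq'] with z hz
      rw [hz, pow_one]
    have h2 : HasDerivAt (fun z => F p + (z - p) * h z) (1 * h p + (p - p) * deriv h p) p :=
      (((hasDerivAt_id p).sub_const p).mul hh.differentiableAt.hasDerivAt).const_add (F p)
    rw [h1.deriv_eq, h2.deriv, one_mul, sub_self, zero_mul, add_zero] at h0
    exact hh0 h0
  have hkC : (k : ℂ) ≠ 0 := by exact_mod_cast hk0
  set ρ : ℂ := h p ^ ((k : ℂ)⁻¹) with hρ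
  have hρk : ρ ^ k = h p := Complex.cpow_nat_inv_pow (h p) hk0
  have hρ0 : ρ ≠ 0 := by
    intro h1
    rw [h1, zero_pow hk0] at hρk
    exact hh0 hρk.symm
  set r : ℂ → ℂ := fun z => ρ * (h z / h p) ^ ((k : ℂ)⁻¹) with hr
  have hrk : ∀ z, r z ^ k = h z := by
    intro z
    simp only [hr]
    rw [mul_pow, hρk, Complex.cpow_nat_inv_pow _ hk0]
    field_simp
  have hrA : AnalyticAt ℂ r p := by
    refine analyticAt_const.mul (AnalyticAt.cpow (hh.div analyticAt_const hh0) analyticAt_const ?_)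
    rw [div_self hh0]
    exact Complex.one_mem_slitPlane
  have hrp : r p = ρ := by
    simp only [hr]
    rw [div_self hh0, Complex.one_cpow, mul_one]
  set g : ℂ → ℂ := fun z => (z - p) * r z with hg
  have hgA : AnalyticAt ℂ g p := (analyticAt_id.sub analyticAt_const).mul hrA
  have hgp : g p = 0 := by simp [hg]
  have hgd : deriv g p = ρ := by
    have h2 : HasDerivAt g (1 * r p + (p - p) * deriv r p) p :=
      ((hasDerivAt_id p).sub_const p).mul hrA.differentiableAt.hasDerivAt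
    rw [h2.deriv, one_mul, sub_self, zero_mul, add_zero, hrp]
  have hgd0 : deriv g p ≠ 0 := by rw [hgd]; exact hρ0
  have hgk : ∀ᶠ z in 𝓝 p, F z = F p + g z ^ k := by
    filter_upwards [heq'] with z hz
    rw [hz]
    simp only [hg]
    rw [mul_pow, hrk]
  set inv : ℂ → ℂ := hgA.hasStrictDerivAt.localInverse _ _ _ hgd0 with hinv
  have hinvA : AnalyticAt ℂ inv (g p) := hgA.analyticAt_localInverse hgd0
  have hinvp : inv (g p) = p := HasStrictFDerivAt.localInverse_apply_image ..
  have hinvr : ∀ᶠ y in 𝓝 (g p), g (inv y) = y := HasStrictDerivAt.eventually_right_inverse ..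
  have hinvd : HasDerivAt inv (deriv g p)⁻¹ (g p) :=
    (hgA.hasStrictDerivAt.to_localInverse hgd0).hasDerivAt
  set ω : ℂ := Complex.exp (2 * Real.pi * Complex.I / k) with hω
  have hωp : IsPrimitiveRoot ω k := Complex.isPrimitiveRoot_exp k hk0
  set τ : ℂ → ℂ := fun z => inv (ω * g z) with hτ
  have hωg : ω * g p = g p := by rw [hgp, mul_zero]
  have hτA : AnalyticAt ℂ τ p := by
    refine AnalyticAt.comp (g := inv) (f := fun z => ω * g z) ?_ (analyticAt_const.mul hgA)
    rw [hωg]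
    exact hinvA
  have hτp : τ p = p := by
    simp only [hτ]
    rw [hωg, hinvp]
  have hτd : deriv τ p = ω := by
    have h1 : HasDerivAt (fun z => ω * g z) (ω * deriv g p) p :=
      hgA.differentiableAt.hasDerivAt.const_mul ω
    have h2 : HasDerivAt τ ((deriv g p)⁻¹ * (ω * deriv g p)) p := by
      refine HasDerivAt.comp (h₂ := inv) (h := fun z => ω * g z) p ?_ h1
      rw [hωg]
      exact hinvd
    rw [h2.deriv]
    field_simp
  refine ⟨k, h, τ, by omega, hh, hh0, heq', hτA, hτp, hτd, ?_⟩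
  have h1 : ∀ᶠ z in 𝓝 p, g (τ z) = ω * g z := by
    have hc : ContinuousAt (fun z => ω * g z) p := continuousAt_const.mul hgA.continuousAt
    have h2 : Tendsto (fun z => ω * g z) (𝓝 p) (𝓝 (g p)) := by
      have := hc.tendsto
      rwa [hωg] at this
    exact h2.eventually hinvr
  have h2 : ∀ᶠ z in 𝓝 p, F (τ z) = F p + g (τ z) ^ k := by
    have h3 : Tendsto τ (𝓝 p) (𝓝 p) := by
      have := hτA.continuousAt.tendsto
      rwa [hτp] at this
    exact h3.eventually hgk
  filter_upwards [h1, h2, hgk] with z e1 e2 e3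
  rw [e2, e1, e3, mul_pow, hωp.pow_eq_one, one_mul]

theorem half {W : Set ℂ} {F : ℂ → ℂ} {p : ℂ} (hW : IsOpen W) (hp : p ∈ W) (hF : DifferentiableOn ℂ F W)
    (hnc : ¬ ∀ᶠ z in 𝓝 p, F z = F p) (h0 : deriv F p = 0) (hPF : PF W F id) :
    deriv (deriv F) p ≠ 0 ∧ ∀ᶠ z in 𝓝 p, F (2 * p - z) = F z := by
  have hA : AnalyticAt ℂ F p := hF.analyticAt (hW.mem_nhds hp)
  obtain ⟨k, h, τ, hk2, hh, hh0, heq, hτA, hτp, hτd, hFτ⟩ := deck hA hnc h0
  have hk0 : k ≠ 0 := by omega
  set ω : ℂ := Complex.exp (2 * Real.pi * Complex.I / k) with hω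
  have hωp : IsPrimitiveRoot ω k := Complex.isPrimitiveRoot_exp k hk0
  have hω1 : ‖ω‖ = 1 := hωp.norm'_eq_one hk0
  have hdF : ∀ᶠ z in 𝓝[≠] p, deriv F z ≠ 0 := by
    rcases hA.deriv.eventually_eq_zero_or_eventually_ne_zero with h1 | h1
    · exfalso
      apply hnc
      exact Pool.H81.MM.const_of_deriv_zero_near (hA.eventually_analyticAt.mono
        fun z hz => hz.differentiableAt) h1
    · exact h1
  have hτt : Tendsto τ (𝓝 p) (𝓝 p) := by
    have := hτA.continuousAt.tendsto
    rwa [hτp] at this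
  set R : ℂ → ℂ := fun z => deriv τ z ^ 2 with hR
  have hRA : AnalyticAt ℂ R p := hτA.deriv.pow 2
  have hRp : R p = ω ^ 2 := by simp only [hR]; rw [hτd]
  have hpos : ∀ᶠ z in 𝓝[≠] p, (R z).im = 0 ∧ 0 < (R z).re := by
    filter_upwards [hdF, nhdsWithin_le_nhds (hW.mem_nhds hp),
      nhdsWithin_le_nhds (hτt.eventually (hW.mem_nhds hp)),
      nhdsWithin_le_nhds (hτA.eventually_analyticAt),
      nhdsWithin_le_nhds (eventually_eventually_nhds.2 hFτ),
      nhdsWithin_le_nhds (hτt.eventually (hA.eventually_analyticAt))] with z e1 e2 e3 e4 e5 e6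
    have h1 : deriv F z = deriv F (τ z) * deriv τ z := by
      have h2 : (fun z => F (τ z)) =ᶠ[𝓝 z] F := e5
      rw [← h2.deriv_eq]
      exact deriv_comp (h₂ := F) (h := τ) z e6.differentiableAt e4.differentiableAt
    have h2 : deriv F (τ z) ≠ 0 := by
      intro h3
      rw [h3, zero_mul] at h1
      exact e1 h1
    obtain ⟨t, ht, he⟩ := hPF z e2 (τ z) e3 e5.self_of_nhds.symm e1 h2
    have hid : ∀ w : ℂ, deriv (id : ℂ → ℂ) w = 1 := fun w => deriv_id w
    rw [hid, hid, one_mul, one_mul, h1, mul_pow] at he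
    have h3 : (t : ℂ) * deriv τ z ^ 2 = 1 := by
      have h4 : deriv F (τ z) ^ 2 * ((t : ℂ) * deriv τ z ^ 2 - 1) = 0 := by
        linear_combination -he
      rcases mul_eq_zero.1 h4 with h5 | h5
      · exact absurd h5 (pow_ne_zero 2 h2)
      · exact sub_eq_zero.1 h5
    have htC : (t : ℂ) ≠ 0 := by exact_mod_cast ht.ne'
    have h4 : R z = ((t⁻¹ : ℝ) : ℂ) := by
      simp only [hR]
      rw [Complex.ofReal_inv]
      field_simp
      linear_combination h3
    rw [h4]
    exact ⟨Complex.ofReal_im _, by rw [Complex.ofReal_re]; positivity⟩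
  have hRim : (R p).im = 0 := Pool.H81.MM.real_of_punctured hRA.continuousAt
    (hpos.mono fun z hz => hz.1)
  have hRre : 0 ≤ (R p).re := by
    have h1 : Tendsto (fun w => (R w).re) (𝓝[≠] p) (𝓝 (R p).re) :=
      ((Complex.continuous_re.continuousAt.comp hRA.continuousAt).tendsto).mono_left
        nhdsWithin_le_nhds
    exact ge_of_tendsto h1 (hpos.mono fun z hz => hz.2.le)
  have hω2 : ω ^ 2 = 1 := by
    rw [hRp] at hRim hRre
    have h1 : ω ^ 2 = ((ω ^ 2).re : ℂ) := Complex.ext (by simp) (by simp [hRim])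
    have h2 : ‖ω ^ 2‖ = 1 := by rw [norm_pow, hω1, one_pow]
    rw [h1, Complex.norm_real, Real.norm_eq_abs, abs_of_nonneg hRre] at h2
    rw [h1, h2, Complex.ofReal_one]
  have hk : k = 2 := by
    have h2 := Nat.le_of_dvd (by norm_num) (hωp.dvd_of_pow_eq_one 2 hω2)
    omega
  have hωm : ω = -1 := by
    rw [hk] at hωp
    exact hωp.eq_neg_one_of_two_right
  have hRn : ∀ᶠ z in 𝓝 p, R z = 1 := by
    have h1 : ∀ᶠ z in 𝓝 p, (R z).im = 0 := by
      have h2 := hpos.mono fun z hz => hz.1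
      rw [eventually_nhdsWithin_iff] at h2
      filter_upwards [h2] with w hw
      by_cases h : w = p
      · rw [h]; exact hRim
      · exact hw h
    filter_upwards [Pool.H81.MM.eq_of_real_near hRA h1] with w hw
    rw [hw, hRp, hω2]
  have hτ1 : ∀ᶠ z in 𝓝 p, deriv τ z = -1 := by
    have h1 : ∀ᶠ z in 𝓝 p, deriv τ z ≠ 1 := by
      apply hτA.deriv.continuousAt.eventually_ne
      rw [hτd, hωm]
      norm_num
    filter_upwards [hRn, h1] with z e1 e2
    have h2 : (deriv τ z - 1) * (deriv τ z + 1) = 0 := by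
      simp only [hR] at e1
      linear_combination e1
    rcases mul_eq_zero.1 h2 with h3 | h3
    · exact absurd (sub_eq_zero.1 h3) e2
    · linear_combination h3
  have hτ2 : ∀ᶠ z in 𝓝 p, τ z = 2 * p - z := by
    have h1 : ∀ᶠ z in 𝓝 p, DifferentiableAt ℂ (fun z => τ z + z) z ∧ deriv (fun z => τ z + z) z = 0 := by
      filter_upwards [hτ1, hτA.eventually_analyticAt] with z e1 e2
      have h2 : HasDerivAt (fun z => τ z + z) (deriv τ z + 1) z :=
        e2.differentiableAt.hasDerivAt.add (hasDerivAt_id z)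
      refine ⟨h2.differentiableAt, ?_⟩
      rw [h2.deriv, e1]
      ring
    have h2 := Pool.H81.MM.const_of_deriv_zero_near (h1.mono fun z hz => hz.1)
      (h1.mono fun z hz => hz.2)
    filter_upwards [h2] with z hz
    rw [hτp] at hz
    linear_combination hz
  refine ⟨?_, ?_⟩
  · subst hk
    have h1 : deriv F =ᶠ[𝓝 p] fun z => (z - p) * (2 * h z + (z - p) * deriv h z) := by
      filter_upwards [eventually_eventually_nhds.2 heq, hh.eventually_analyticAt] with z e1 e2
      have h2 : F =ᶠ[𝓝 z] fun z => F p + (z - p) ^ 2 * h z := e1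
      rw [h2.deriv_eq]
      have h3 : HasDerivAt (fun z => F p + (z - p) ^ 2 * h z)
          ((((2 : ℕ) : ℂ) * (z - p) ^ (2 - 1) * 1) * h z + (z - p) ^ 2 * deriv h z) z :=
        ((((hasDerivAt_id z).sub_const p).pow 2).mul e2.differentiableAt.hasDerivAt).const_add (F p)
      rw [h3.deriv]
      norm_num
      ring
    rw [h1.deriv_eq]
    have h4 : HasDerivAt (fun z => (z - p) * (2 * h z + (z - p) * deriv h z))
        (1 * (2 * h p + (p - p) * deriv h p) +
          (p - p) * deriv (fun z => 2 * h z + (z - p) * deriv h z) p) p := by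
      refine ((hasDerivAt_id p).sub_const p).mul ?_
      exact ((analyticAt_const.mul hh).add ((analyticAt_id.sub analyticAt_const).mul
        hh.deriv)).differentiableAt.hasDerivAt
    rw [h4.deriv, sub_self, zero_mul, zero_mul, add_zero, add_zero, one_mul]
    exact mul_ne_zero two_ne_zero hh0
  · filter_upwards [hFτ, hτ2] with z e1 e2
    rw [← e2]
    exact e1

end Pool.Agent.H47.OI
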